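import Mathlib

/-! Project CI (MP_14681b_lc, S14403): definitions.
`bl n` lists all binary strings of length `n`.  An infinite oracle `Z : ℕ → Bool` codes, for every `d`, a set of
strings `{σ | Z (encode (d, σ))}`; a finite list `α` is a finite part of such an oracle, and `lk df α d σ` looks up
the bit (with default `df` beyond the length of `α`). -/

set_option autoImplicit false

namespace Pool.Agent.W459.CI

/-- all binary strings of length `n` -/
def bl : ℕ → List (List Bool)
  | 0 => [[]]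
  | n + 1 => (bl n).map (List.cons false) ++ (bl n).map (List.cons true)

/-- statements `(d, m, k, F, G)` -/
abbrev St := ℕ × ℕ × ℕ × List (List Bool) × List (List Bool)

/-- candidates `(k, F, G)` -/
abbrev Cv := ℕ × List (List Bool) × List (List Bool)

/-- the statement with code `i` -/
def dec5 (i : ℕ) : St := (Encodable.decode (α := St) i).getD (0, 0, 0, [], [])

/-- the candidate with code `i` -/
def dec3 (i : ℕ) : Cv := (Encodable.decode (α := Cv) i).getD (0, [], [])

/-- the pair with code `i` -/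
def dec2 (i : ℕ) : ℕ × List Bool := (Encodable.decode (α := ℕ × List Bool) i).getD (0, [])

/-- look up the bit of `(d, σ)` in the finite oracle part `α`, default value `df` -/
def lk (df : Bool) (α : List Bool) (d : ℕ) (σ : List Bool) : Bool :=
  α.getD (Encodable.encode (d, σ)) df

/-- `x, y` is an edge at stage `m`, level `k` -/
def edge (df : Bool) (α : List Bool) (d m k : ℕ) (x y : List Bool) : Prop :=
  ∀ n < k + 1, m ≤ n → (lk df α d (x.take n) = true ∨ lk df α d (y.take n) = true)

/-- `(F, G)` is a vertex cover of the edges at stage `m`, level `k` -/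
def cov (df : Bool) (α : List Bool) (d m k : ℕ) (F G : List (List Bool)) : Prop :=
  ∀ x ∈ bl k, ∀ y ∈ bl k, edge df α d m k x y → (x ∈ F ∨ y ∈ G)

/-- cost of the cover `(k, F, G)` is at most the cost of `c = (k', F', G')` plus `2 ^ (-e)` -/
def ineq (e k : ℕ) (F G : List (List Bool)) (c : Cv) : Prop :=
  (F.length + G.length) * 2 ^ c.1 * 2 ^ e ≤
    (c.2.1.length + c.2.2.length) * 2 ^ k * 2 ^ e + 2 ^ (k + c.1)

/-- the statement `s = (d, m, k, F, G)` (meaning: `(k, F, G)` is a nearly optimal cover of stage `(d, m)`)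
is not refuted by `α` -/
def Th (s : St) (α : List Bool) : Prop :=
  cov false α s.1 s.2.1 s.2.2.1 s.2.2.2.1 s.2.2.2.2 ∧
  ∀ i < α.length, cov true α s.1 s.2.1 (dec3 i).1 (dec3 i).2.1 (dec3 i).2.2 →
    ineq (s.1 + s.2.1 + 1) s.2.2.1 s.2.2.2.1 s.2.2.2.2 (dec3 i)

/-- number of strings of length `n` in the `d`-th set -/
def cnt (α : List Bool) (d n : ℕ) : ℕ := ((bl n).filter (fun σ => lk false α d σ)).length

/-- base class; `f` enumerates the pairs `(d, σ)` that have to be in the oracle -/
def C0 (f : (ℕ × List Bool) × ℕ → Bool) (α : List Bool) : Prop :=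
  (∀ i < α.length, f (dec2 i, α.length) = true → α.getD i false = true) ∧
  ∀ d < α.length + 1, ∀ n < α.length + 1, cnt α d n * 2 ^ d ≤ 2 ^ n

/-- `α` is a possible oracle part satisfying the base class and all statements selected by `β` -/
def N (f : (ℕ × List Bool) × ℕ → Bool) (β α : List Bool) : Prop :=
  C0 f α ∧ ∀ i < β.length, β.getD i false = true → Th (dec5 i) α

/-- `j` is the first statement true in `β` about stage `(d, m)` -/
def Chosen (β : List Bool) (d m j : ℕ) : Prop :=
  j < β.length ∧ (β.getD j false = true ∧ (dec5 j).1 = d ∧ (dec5 j).2.1 = m) ∧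
  ∀ i < j, ¬ (β.getD i false = true ∧ (dec5 i).1 = d ∧ (dec5 i).2.1 = m)

/-- level of the statement `j` -/
def kk (j : ℕ) : ℕ := (dec5 j).2.2.1

/-- left (`s = true`) or right (`s = false`) part of the cover of statement `j` -/
def side (s : Bool) (j : ℕ) : List (List Bool) :=
  if s = true then (dec5 j).2.2.2.1 else (dec5 j).2.2.2.2

/-- `σ` is put into the test because of the stages `0, …, js.length - 1` with chosen statements `js` -/
def Sel (s : Bool) (k : ℕ) (σ β : List Bool) (d : ℕ) (js : List ℕ) : Prop :=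
  k + 3 ≤ d ∧ 0 < js.length ∧ (∀ m < js.length, Chosen β d m (js.getD m 0)) ∧
  σ.length = (js.map kk).sum ∧
  σ.take (kk (js.getD (js.length - 1) 0)) ∈ side s (js.getD (js.length - 1) 0) ∧
  ∀ m < js.length - 1, σ.take (kk (js.getD m 0)) ∉ side s (js.getD m 0)

/-- witnesses `(β, t, d, js)` -/
abbrev Wt := List Bool × ℕ × ℕ × List ℕ

/-- the witness with code `i` -/
def dec4 (i : ℕ) : Wt := (Encodable.decode (α := Wt) i).getD ([], 0, 0, [])

/-- matrix of the test, `x = (k, σ, a, b)` -/
def RR (f : (ℕ × List Bool) × ℕ → Bool) (s : Bool) (x : ℕ × List Bool × ℕ × ℕ) : Prop :=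
  (∃ α ∈ bl x.2.2.2, N f (dec4 x.2.2.1).1 α) ∧
  (∀ i < (dec4 x.2.2.1).1.length, (dec4 x.2.2.1).1.getD i false = false →
    ¬ ∃ α ∈ bl (dec4 x.2.2.1).2.1, N f ((dec4 x.2.2.1).1.take i ++ [true]) α) ∧
  Sel s x.1 x.2.1 (dec4 x.2.2.1).1 (dec4 x.2.2.1).2.2.1 (dec4 x.2.2.1).2.2.2

/-! ## statements of the parts -/

/-- CI-COMP: the matrix is primitive recursive -/
def StmComp : Prop := ∀ (f : (ℕ × List Bool) × ℕ → Bool) (_ : Primrec f) (s : Bool), PrimrecPred (RR f s)

/-- CI-ENUM: enumeration of the compressible strings -/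
def StmEnum : Prop := ∀ (U : List Bool →. List Bool) (_ : Partrec U),
  ∃ f : (ℕ × List Bool) × ℕ → Bool, Primrec f ∧
    (∀ (d : ℕ) (σ : List Bool), (∃ q, σ ∈ U q ∧ q.length + d < σ.length) ↔ ∃ t, f ((d, σ), t) = true) ∧
    ∀ (x : ℕ × List Bool) (t t' : ℕ), t ≤ t' → f (x, t) = true → f (x, t') = true

/-- CI-KON: forcing with a decreasing sequence of statements (low basis theorem without computability) -/
def StmKon : Prop := ∀ (N : List Bool → List Bool → Prop)
  (_ : ∀ β α α', N β (α ++ α') → N β α) (_ : ∀ β β' α, N (β ++ β') α → N β α)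
  (_ : ∀ β α, N β α → N (β ++ [false]) α) (_ : ∀ t : ℕ, ∃ α, α.length = t ∧ N [] α),
  ∃ (b Z : ℕ → Bool),
    (∀ n t : ℕ, N (List.ofFn fun i : Fin n => b i) (List.ofFn fun i : Fin t => Z i)) ∧
    (∀ n : ℕ, b n = false → ∃ t : ℕ, ∀ α, α.length = t →
      ¬ N ((List.ofFn fun i : Fin n => b i) ++ [true]) α) ∧
    ∀ β : List Bool, (∀ t : ℕ, ∃ α, α.length = t ∧ N β α) →
      (∀ i < β.length, β.getD i false = false → ∃ t : ℕ, ∀ α, α.length = t → ¬ N (β.take i ++ [true]) α) →
      β = List.ofFn fun i : Fin β.length => b i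

/-- CI-COVER: union of nearly minimal vertex covers of an increasing sequence of bipartite graphs -/
def StmCover : Prop := ∀ (V W : Type) (_ : DecidableEq V) (_ : DecidableEq W) (M : ℕ) (E : ℕ → V → W → Prop)
  (F : ℕ → Finset V) (G : ℕ → Finset W) (e : ℕ → ℝ) (A : Finset V) (B : Finset W)
  (_ : ∀ m m' x y, m ≤ m' → E m x y → E m' x y)
  (_ : ∀ m, m ≤ M → ∀ x y, E m x y → x ∈ F m ∨ y ∈ G m)
  (_ : ∀ m, m ≤ M → ∀ (F' : Finset V) (G' : Finset W), (∀ x y, E m x y → x ∈ F' ∨ y ∈ G') →
    ((F m).card + (G m).card : ℝ) ≤ F'.card + G'.card + e m)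
  (_ : ∀ x y, E M x y → x ∈ A ∨ y ∈ B),
  (((Finset.range (M + 1)).biUnion F).card : ℝ) ≤ A.card + B.card + ∑ m ∈ Finset.range (M + 1), e m

/-- CI-CYL: number of strings of length `K` whose `k`-prefix has a property -/
def StmCyl : Prop := ∀ (k K : ℕ) (_ : k ≤ K) (P : List Bool → Prop) (_ : DecidablePred P),
  ((bl K).toFinset.filter fun z => P (z.take k)).card =
    ((bl k).toFinset.filter fun z => P z).card * 2 ^ (K - k)

end Pool.Agent.W459.CI
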